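import Pool.Agent.Helper73.DC.St4

set_option autoImplicit false

namespace Pool.Agent.Helper83.DC

open Pool.Agent.Helper73.DC
open Finset
open scoped Classical

variable {α : Type} [Fintype α]

theorem tIte (h2 : StL2) {p : List α → (ℕ → ℕ) → Prop} [inst : ∀ w v, Decidable (p w v)] {F G : VF α} (hp : E2P p)
    (hF : E2 F) (hG : E2 G) : E2 (fun w v => if p w v then F w v else G w v) := by
  have := (h2 (α := α)).2.2 p F G hp hF hG
  convert this

theorem tEq (h2 : StL2) {F G : VF α} (hF : E2 F) (hG : E2 G) : E2P (fun w v => F w v = G w v) :=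
  ((h2 (α := α)).1 F G hF hG).2.2

theorem tLe (h2 : StL2) {F G : VF α} (hF : E2 F) (hG : E2 G) : E2P (fun w v => F w v ≤ G w v) :=
  ((h2 (α := α)).1 F G hF hG).1

theorem tLt (h2 : StL2) {F G : VF α} (hF : E2 F) (hG : E2 G) : E2P (fun w v => F w v < G w v) :=
  ((h2 (α := α)).1 F G hF hG).2.1

theorem tNot (h2 : StL2) {p : List α → (ℕ → ℕ) → Prop} (hp : E2P p) : E2P (fun w v => ¬ p w v) :=
  ((h2 (α := α)).2.1 p p hp hp).1

theorem tAnd (h2 : StL2) {p q : List α → (ℕ → ℕ) → Prop} (hp : E2P p) (hq : E2P q) : E2P (fun w v => p w v ∧ q w v) :=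
  ((h2 (α := α)).2.1 p q hp hq).2.1

theorem tDiv (h4 : StL4) {F G : VF α} (hF : E2 F) (hG : E2 G) : E2 (fun w v => F w v / G w v) := (h4 F G hF hG).1

theorem tMod (h4 : StL4) {F G : VF α} (hF : E2 F) (hG : E2 G) : E2 (fun w v => F w v % G w v) := (h4 F G hF hG).2

theorem tSub (h1 : StL1) {F G : VF α} (hF : E2 F) (hG : E2 G) : E2 (fun w v => F w v - G w v) := (h1 F G hF hG).1

theorem tDg (h5 : StL5) {F G H : VF α} (hF : E2 F) (hG : E2 G) (hH : E2 H) : E2 (fun w v => dg (F w v) (G w v) (H w v)) :=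
  (h5 F G H F F hF hG hH hF hF).2.1

theorem tPw (h5 : StL5) {F G H : VF α} (hF : E2 F) (hG : E2 G) (hH : E2 H) : E2 (fun w v => pw (F w v) (G w v) (H w v)) :=
  (h5 F G H F F hF hG hH hF hF).1

theorem tAll (h3 : StL3) {p : List α → (ℕ → ℕ) → Prop} {H : VF α} (hp : E2P p) (hH : E2 H) :
    E2P (fun w v => ∀ i < H w v, p w (scons i v)) := ((h3 (α := α)).2 p H hp hH).1

theorem tBmin (h3 : StL3) {p : List α → (ℕ → ℕ) → Prop} {H : VF α} (hp : E2P p) (hH : E2 H) :
    E2 (fun w v => bmin (H w v) (fun i => p w (scons i v))) := ((h3 (α := α)).2 p H hp hH).2.2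

theorem tSum (h3 : StL3) {T H : VF α} (hT : E2 T) (hH : E2 H) :
    E2 (fun w v => ∑ i ∈ range (H w v), T w (scons i v)) := (h3 (α := α)).1 T H hT hH

end Pool.Agent.Helper83.DC
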