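import Pool.Agent.Helper83.DC.Tools

set_option autoImplicit false

namespace Pool.Agent.Helper83.DC

open Pool.Agent.Helper73.DC
open Finset
open scoped Classical

/-- E2 version of `dln`. -/
theorem dln_e2 (h1 : StL1) (h2 : StL2) (h4 : StL4) (h5 : StL5) {α : Type} [Fintype α] {P L A G K : VF α} (hP : E2 P)
    (hL : E2 L) (hA : E2 A) (hG : E2 G) (hK : E2 K) :
    E2 (fun w v => if P w v = 0 then 0 else dln (P w v) (L w v) (A w v) (G w v) (K w v)) := by
  have a0 : E2 (fun w v => if P w v = 0 then 0 else 1 % P w v) :=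
    tIte h2 (tEq h2 hP E2.zero) E2.zero (tMod h4 (E2.const 1) hP)
  have d1 : E2 (fun w u => dg (P w (fun i => u (i + 2))) (G w (fun i => u (i + 2)))
      (K w (fun i => u (i + 2)) * L w (fun i => u (i + 2)) + u 0)) :=
    tDg h5 hP.sh2 hG.sh2 ((hK.sh2.mul hL.sh2).add (E2.get 0))
  have a1 : E2 (fun w u => if P w (fun i => u (i + 2)) = 0 then 0 else
      (u 1 * (if dg 2 (A w (fun i => u (i + 2))) (u 0) = 1 then
        dg (P w (fun i => u (i + 2))) (G w (fun i => u (i + 2))) (K w (fun i => u (i + 2)) * L w (fun i => u (i + 2)) + u 0)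
        else 1 + P w (fun i => u (i + 2)) - dg (P w (fun i => u (i + 2))) (G w (fun i => u (i + 2)))
          (K w (fun i => u (i + 2)) * L w (fun i => u (i + 2)) + u 0))) % P w (fun i => u (i + 2))) :=
    tIte h2 (tEq h2 hP.sh2 E2.zero) E2.zero
      (tMod h4 ((E2.get 1).mul (tIte h2 (tEq h2 (tDg h5 (E2.const 2) hA.sh2 (E2.get 0)) (E2.const 1)) d1
        (tSub h1 ((E2.const 1).add hP.sh2) d1))) hP.sh2)
  have key : ∀ w v y, prec (fun w v => if P w v = 0 then 0 else 1 % P w v) (fun w u => if P w (fun i => u (i + 2)) = 0 then 0 else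
      (u 1 * (if dg 2 (A w (fun i => u (i + 2))) (u 0) = 1 then
        dg (P w (fun i => u (i + 2))) (G w (fun i => u (i + 2))) (K w (fun i => u (i + 2)) * L w (fun i => u (i + 2)) + u 0)
        else 1 + P w (fun i => u (i + 2)) - dg (P w (fun i => u (i + 2))) (G w (fun i => u (i + 2)))
          (K w (fun i => u (i + 2)) * L w (fun i => u (i + 2)) + u 0))) % P w (fun i => u (i + 2))) w v y
      = if P w v = 0 then 0 else (∏ i ∈ range y, (if bt (A w v) i = 1 then dg (P w v) (G w v) (K w v * L w v + i)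
          else 1 + P w v - dg (P w v) (G w v) (K w v * L w v + i))) % P w v := by
    intro w v y
    induction y with
    | zero => simp [prec]
    | succ y ih =>
      simp only [prec]
      rw [ih]
      simp only [scons]
      by_cases h : P w v = 0
      · simp [h]
      · simp only [h, if_false]
        rw [prod_range_succ, Nat.mod_mul_mod]
        rfl
  have res := E2.brec a0 a1 hL hP (by
    intro w v y hy
    rw [key]
    split_ifs with h
    · exact Nat.zero_le _
    · exact (Nat.mod_lt _ (Nat.pos_of_ne_zero h)).le)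
  have e : (fun w v => prec (fun w v => if P w v = 0 then 0 else 1 % P w v)
      (fun w u => if P w (fun i => u (i + 2)) = 0 then 0 else
      (u 1 * (if dg 2 (A w (fun i => u (i + 2))) (u 0) = 1 then
        dg (P w (fun i => u (i + 2))) (G w (fun i => u (i + 2))) (K w (fun i => u (i + 2)) * L w (fun i => u (i + 2)) + u 0)
        else 1 + P w (fun i => u (i + 2)) - dg (P w (fun i => u (i + 2))) (G w (fun i => u (i + 2)))
          (K w (fun i => u (i + 2)) * L w (fun i => u (i + 2)) + u 0))) % P w (fun i => u (i + 2))) w v (L w v))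
      = (fun w v => if P w v = 0 then 0 else dln (P w v) (L w v) (A w v) (G w v) (K w v)) := by
    funext w v
    exact key w v _
  rw [e] at res
  exact res

/-- A packed number is E2 if its digits are. -/
theorem bld_e2 (h3 : StL3) (h4 : StL4) (h5 : StL5) {α : Type} [Fintype α] {C P N T : VF α} (hC : E2 C) (hP : E2 P)
    (hN : E2 N) (hT : E2 T) :
    E2 (fun w v => bld (C w v) (P w v) (N w v) (fun j => T w (scons j v))) := by
  have c : E2 (fun w u => (T w u % P w (fun i => u (i + 1))) *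
      pw (C w (fun i => u (i + 1))) (P w (fun i => u (i + 1))) (u 0)) :=
    (tMod h4 hT hP.sh1).mul (tPw h5 hC.sh1 hP.sh1 (E2.get 0))
  exact tSum h3 c hN

theorem mM4 : StL1 → StL2 → StL3 → StL4 → StL5 → StL6 → StM4 := by
  intro h1 h2 h3 h4 h5 _
  intro α _ F hF
  have s : ∀ i, E2 (fun w u => F i w (fun i => u (i + 1))) := fun i => (hF i).sh1
  refine ⟨?_, ?_, ?_⟩
  · have bt1 : E2 (fun w u => bt (F 6 w (fun i => u (i + 1))) (u 0 % F 2 w (fun i => u (i + 1)))) :=
      tDg h5 (E2.const 2) (s 6) (tMod h4 (E2.get 0) (s 2))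
    have d1 : E2 (fun w u => dg (F 1 w (fun i => u (i + 1))) (F 3 w (fun i => u (i + 1))) (u 0)) :=
      tDg h5 (s 1) (s 3) (E2.get 0)
    have t1 : E2 (fun w u => if u 0 / F 2 w (fun i => u (i + 1)) = F 4 w (fun i => u (i + 1)) then
        dg (F 1 w (fun i => u (i + 1))) (F 3 w (fun i => u (i + 1))) (u 0) +
          (if F 5 w (fun i => u (i + 1)) = 0 then bt (F 6 w (fun i => u (i + 1))) (u 0 % F 2 w (fun i => u (i + 1)))
            else F 1 w (fun i => u (i + 1)) - bt (F 6 w (fun i => u (i + 1))) (u 0 % F 2 w (fun i => u (i + 1))))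
        else dg (F 1 w (fun i => u (i + 1))) (F 3 w (fun i => u (i + 1))) (u 0)) :=
      tIte h2 (tEq h2 (tDiv h4 (E2.get 0) (s 2)) (s 4))
        (d1.add (tIte h2 (tEq h2 (s 5) E2.zero) bt1 (tSub h1 (s 1) bt1))) d1
    exact tIte h2 (tEq h2 (hF 1) E2.zero) E2.zero
      (bld_e2 h3 h4 h5 (hF 0) (hF 1) ((E2.const 3).mul (hF 2)) t1)
  · have d1 : E2 (fun w u => dg (F 1 w (fun i => u (i + 1))) (F 4 w (fun i => u (i + 1))) (u 0)) :=
      tDg h5 (s 1) (s 4) (E2.get 0)
    have t1 : E2 (fun w u => if u 0 / F 2 w (fun i => u (i + 1)) = F 5 w (fun i => u (i + 1)) then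
        dg (F 1 w (fun i => u (i + 1))) (F 4 w (fun i => u (i + 1))) (u 0)
        else F 3 w (fun i => u (i + 1)) * dg (F 1 w (fun i => u (i + 1))) (F 4 w (fun i => u (i + 1))) (u 0)) :=
      tIte h2 (tEq h2 (tDiv h4 (E2.get 0) (s 2)) (s 5)) d1 ((s 3).mul d1)
    exact tIte h2 (tEq h2 (hF 1) E2.zero) E2.zero
      (bld_e2 h3 h4 h5 (hF 0) (hF 1) ((E2.const 3).mul (hF 2)) t1)
  · have bt1 : E2 (fun w u => bt (F 8 w (fun i => u (i + 1))) (u 0 % F 2 w (fun i => u (i + 1)))) :=
      tDg h5 (E2.const 2) (s 8) (tMod h4 (E2.get 0) (s 2))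
    have d1 : E2 (fun w u => dg (F 1 w (fun i => u (i + 1))) (F 3 w (fun i => u (i + 1))) (u 0)) :=
      tDg h5 (s 1) (s 3) (E2.get 0)
    have l1 := dln_e2 h1 h2 h4 h5 (hF 1) (hF 2) (hF 6) (hF 3) (tMod h4 ((hF 4).add (E2.const 1)) (E2.const 3))
    have l2 := dln_e2 h1 h2 h4 h5 (hF 1) (hF 2) (hF 7) (hF 3) (tMod h4 ((hF 4).add (E2.const 2)) (E2.const 3))
    have l1' := l1.sh1
    have l2' := l2.sh1
    have t1 : E2 (fun w u => if u 0 / F 2 w (fun i => u (i + 1)) = F 4 w (fun i => u (i + 1)) then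
        dg (F 1 w (fun i => u (i + 1))) (F 3 w (fun i => u (i + 1))) (u 0) +
          (if F 5 w (fun i => u (i + 1)) = 0 then
            F 1 w (fun i => u (i + 1)) - ((if F 1 w (fun i => u (i + 1)) = 0 then 0 else
              dln (F 1 w (fun i => u (i + 1))) (F 2 w (fun i => u (i + 1))) (F 6 w (fun i => u (i + 1)))
              (F 3 w (fun i => u (i + 1))) ((F 4 w (fun i => u (i + 1)) + 1) % 3)) *
              (if F 1 w (fun i => u (i + 1)) = 0 then 0 else
              dln (F 1 w (fun i => u (i + 1))) (F 2 w (fun i => u (i + 1))) (F 7 w (fun i => u (i + 1)))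
              (F 3 w (fun i => u (i + 1))) ((F 4 w (fun i => u (i + 1)) + 2) % 3)) *
              bt (F 8 w (fun i => u (i + 1))) (u 0 % F 2 w (fun i => u (i + 1)))) % F 1 w (fun i => u (i + 1))
            else (if F 1 w (fun i => u (i + 1)) = 0 then 0 else
              dln (F 1 w (fun i => u (i + 1))) (F 2 w (fun i => u (i + 1))) (F 6 w (fun i => u (i + 1)))
              (F 3 w (fun i => u (i + 1))) ((F 4 w (fun i => u (i + 1)) + 1) % 3)) *
              (if F 1 w (fun i => u (i + 1)) = 0 then 0 else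
              dln (F 1 w (fun i => u (i + 1))) (F 2 w (fun i => u (i + 1))) (F 7 w (fun i => u (i + 1)))
              (F 3 w (fun i => u (i + 1))) ((F 4 w (fun i => u (i + 1)) + 2) % 3)) *
              bt (F 8 w (fun i => u (i + 1))) (u 0 % F 2 w (fun i => u (i + 1))))
        else dg (F 1 w (fun i => u (i + 1))) (F 3 w (fun i => u (i + 1))) (u 0)) :=
      tIte h2 (tEq h2 (tDiv h4 (E2.get 0) (s 2)) (s 4))
        (d1.add (tIte h2 (tEq h2 (s 5) E2.zero) (tSub h1 (s 1) (tMod h4 ((l1'.mul l2').mul bt1) (s 1)))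
          ((l1'.mul l2').mul bt1))) d1
    have t2 := bld_e2 h3 h4 h5 (hF 0) (hF 1) ((E2.const 3).mul (hF 2)) t1
    have t3 := tIte h2 (tEq h2 (hF 1) E2.zero) E2.zero t2
    have fe : ∀ {f g : VF α}, E2 f → f = g → E2 g := fun h e => e ▸ h
    refine fe t3 ?_
    funext w v
    by_cases hne : F 1 w v = 0
    · simp only [hne, if_true]
    · simp only [hne, if_false]
      unfold updn
      congr 1
      funext j
      simp only [scons, hne, if_false]

end Pool.Agent.Helper83.DC
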