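import Pool.Agent.Helper73.DC.St4

set_option autoImplicit false

namespace Pool.Agent.Helper83.DC

open Pool.Agent.Helper73.DC
open Finset
open scoped Classical

theorem mM6 : StM6 := by
  intro p hp
  have hp2 := hp.out.two_le
  have h1 : 1 % p = 1 := Nat.mod_eq_of_lt hp.out.one_lt
  have key : ∀ (om d : ℕ), om ^ d % p = 1 ↔ (om : ZMod p) ^ d = 1 := by
    intro om d
    have h := ZMod.natCast_eq_natCast_iff' (om ^ d) 1 p
    rw [h1] at h
    rw [← h]
    push_cast
    rfl
  constructor
  · obtain ⟨u, hu⟩ := IsCyclic.exists_generator (α := (ZMod p)ˣ)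
    have hord : orderOf u = p - 1 := by
      rw [orderOf_eq_card_of_forall_mem_zpowers hu, Nat.card_eq_fintype_card, ZMod.card_units_eq_totient,
        Nat.totient_prime hp.out]
    refine ⟨(u : ZMod p).val, ZMod.val_lt _, ?_, ?_⟩
    · intro d hd hd0 h
      rw [key, ZMod.natCast_zmod_val] at h
      have h' : u ^ d = 1 := by
        ext
        push_cast
        exact h
      have h2 := orderOf_dvd_of_pow_eq_one h'
      have := Nat.le_of_dvd hd0 h2
      omega
    · rw [h1, key, ZMod.natCast_zmod_val]
      exact ZMod.pow_card_sub_one_eq_one u.ne_zero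
  · intro om h h'
    rw [h1, key] at h'
    refine ⟨?_, ?_⟩
    · intro h0
      rw [h0, zero_pow (by omega)] at h'
      exact zero_ne_one h'
    · intro d hd hd' he
      exact h d hd' hd ((key om d).2 he)

end Pool.Agent.Helper83.DC
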