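import Pool.Agent.Helper83.DC.Tools

set_option autoImplicit false

namespace Pool.Agent.Helper83.DC

open Pool.Agent.Helper73.DC
open Finset
open scoped Classical

/-- Power modulo `p` (0 for `p = 0`). -/
noncomputable def pmd (a e p : ℕ) : ℕ := if p = 0 then 0 else a ^ e % p

theorem pmd_e2 (h2 : StL2) (h4 : StL4) {α : Type} [Fintype α] {F G H : VF α} (hF : E2 F) (hG : E2 G) (hH : E2 H) :
    E2 (fun w v => pmd (F w v) (G w v) (H w v)) := by
  have a0 : E2 (fun w v => if H w v = 0 then 0 else 1 % H w v) :=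
    tIte h2 (tEq h2 hH E2.zero) E2.zero (tMod h4 (E2.const 1) hH)
  have a1 : E2 (fun w v => if H w (fun i => v (i + 2)) = 0 then 0 else (v 1 * F w (fun i => v (i + 2))) % H w (fun i => v (i + 2))) :=
    tIte h2 (tEq h2 hH.sh2 E2.zero) E2.zero (tMod h4 ((E2.get 1).mul hF.sh2) hH.sh2)
  have key : ∀ w v y, prec (fun w v => if H w v = 0 then 0 else 1 % H w v)
      (fun w v => if H w (fun i => v (i + 2)) = 0 then 0 else (v 1 * F w (fun i => v (i + 2))) % H w (fun i => v (i + 2))) w v y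
      = pmd (F w v) y (H w v) := by
    intro w v y
    induction y with
    | zero => simp [prec, pmd]
    | succ y ih =>
      simp only [prec]
      rw [ih]
      simp only [scons, pmd]
      by_cases h : H w v = 0
      · simp [h]
      · simp only [h, if_false]
        rw [pow_succ, Nat.mod_mul_mod]
  have res := E2.brec a0 a1 hG hH (by
    intro w v y hy
    rw [key]
    unfold pmd
    split_ifs with h
    · exact Nat.zero_le _
    · exact (Nat.mod_lt _ (Nat.pos_of_ne_zero h)).le)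
  have e : (fun w v => prec (fun w v => if H w v = 0 then 0 else 1 % H w v)
      (fun w v => if H w (fun i => v (i + 2)) = 0 then 0 else (v 1 * F w (fun i => v (i + 2))) % H w (fun i => v (i + 2))) w v
      (G w v)) = (fun w v => pmd (F w v) (G w v) (H w v)) := by
    funext w v
    exact key w v _
  rw [e] at res
  exact res

/-- The prime. -/
noncomputable def Pf (L : ℕ) : ℕ := bmin (4 * L + 5) (fun q => 2 * L + 1 < q ∧ ∀ d < q, ¬ (2 ≤ d ∧ q % d = 0))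

/-- The generator. -/
noncomputable def Of (L : ℕ) : ℕ :=
  bmin (Pf L) (fun om => (∀ d < Pf L - 1, ¬ (0 < d ∧ pmd om d (Pf L) = 1)) ∧ pmd om (Pf L - 1) (Pf L) = 1 % Pf L)

theorem Pf_e2 (h2 : StL2) (h3 : StL3) (h4 : StL4) {α : Type} [Fintype α] {F : VF α} (hF : E2 F) :
    E2 (fun w v => Pf (F w v)) := by
  have c1 : E2P (α := α) (fun w u => ¬ (2 ≤ u 0 ∧ u 1 % u 0 = 0)) :=
    tNot h2 (tAnd h2 (tLe h2 (E2.const 2) (E2.get 0)) (tEq h2 (tMod h4 (E2.get 1) (E2.get 0)) E2.zero))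
  have c2 : E2P (α := α) (fun w u => ∀ d < u 0, ¬ (2 ≤ d ∧ u 0 % d = 0)) := tAll h3 c1 (E2.get 0)
  have c3 : E2P (α := α) (fun w u => 2 * F w (fun i => u (i + 1)) + 1 < u 0 ∧ ∀ d < u 0, ¬ (2 ≤ d ∧ u 0 % d = 0)) :=
    tAnd h2 (tLt h2 (((E2.const 2).mul hF.sh1).add (E2.const 1)) (E2.get 0)) c2
  exact tBmin h3 c3 (((E2.const 4).mul hF).add (E2.const 5))

theorem Of_e2 (h1 : StL1) (h2 : StL2) (h3 : StL3) (h4 : StL4) {α : Type} [Fintype α] {F : VF α} (hF : E2 F) :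
    E2 (fun w v => Of (F w v)) := by
  have hP : E2 (fun w v => Pf (F w v)) := Pf_e2 h2 h3 h4 hF
  have hP1 := hP.sh1
  have hP2 := hP.sh2
  have c1 : E2P (α := α) (fun w u => ¬ (0 < u 0 ∧ pmd (u 1) (u 0) (Pf (F w (fun i => u (i + 2)))) = 1)) :=
    tNot h2 (tAnd h2 (tLt h2 E2.zero (E2.get 0)) (tEq h2 (pmd_e2 h2 h4 (E2.get 1) (E2.get 0) hP2) (E2.const 1)))
  have c2 : E2P (α := α) (fun w u => ∀ d < Pf (F w (fun i => u (i + 1))) - 1,
      ¬ (0 < d ∧ pmd (u 0) d (Pf (F w (fun i => u (i + 1)))) = 1)) := tAll h3 c1 (tSub h1 hP1 (E2.const 1))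
  have c3 : E2P (α := α) (fun w u => (∀ d < Pf (F w (fun i => u (i + 1))) - 1,
      ¬ (0 < d ∧ pmd (u 0) d (Pf (F w (fun i => u (i + 1)))) = 1)) ∧
      pmd (u 0) (Pf (F w (fun i => u (i + 1))) - 1) (Pf (F w (fun i => u (i + 1)))) = 1 % Pf (F w (fun i => u (i + 1)))) :=
    tAnd h2 c2 (tEq h2 (pmd_e2 h2 h4 (E2.get 0) (tSub h1 hP1 (E2.const 1)) hP1) (tMod h4 (E2.const 1) hP1))
  exact tBmin h3 c3 hP

theorem mM7 : StL1 → StL2 → StL3 → StL4 → StL5 → StL7 → StM6 → StM7 := by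
  intro h1 h2 h3 h4 _ h7 h6
  refine ⟨Pf, Of, fun F hF => ⟨Pf_e2 h2 h3 h4 hF, Of_e2 h1 h2 h3 h4 hF⟩, fun L => ?_⟩
  have hP : Pf L < 4 * L + 5 ∧ (2 * L + 1 < Pf L ∧ ∀ d < Pf L, ¬ (2 ≤ d ∧ Pf L % d = 0)) := by
    have := (h7 (4 * L + 5) (fun q => 2 * L + 1 < q ∧ ∀ d < q, ¬ (2 ≤ d ∧ q % d = 0))).2.2.1 (by
      obtain ⟨q, hq, hq1, hq2⟩ := Nat.exists_prime_lt_and_le_two_mul (2 * L + 2) (by omega)
      refine ⟨q, by omega, by omega, ?_⟩
      rintro d hd ⟨hd2, hd3⟩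
      exact (Nat.prime_def_lt'.1 hq).2 d hd2 hd (Nat.dvd_of_mod_eq_zero hd3))
    exact ⟨this.1, this.2.1⟩
  have hpr : (Pf L).Prime := by
    rw [Nat.prime_def_lt']
    refine ⟨by omega, fun m hm hm2 hm3 => ?_⟩
    exact hP.2.2 m hm2 ⟨hm, Nat.mod_eq_zero_of_dvd hm3⟩
  haveI : Fact (Pf L).Prime := ⟨hpr⟩
  have hpos : Pf L ≠ 0 := hpr.ne_zero
  have hO : Of L < Pf L ∧ ((∀ d < Pf L - 1, ¬ (0 < d ∧ pmd (Of L) d (Pf L) = 1)) ∧
      pmd (Of L) (Pf L - 1) (Pf L) = 1 % Pf L) := by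
    have := (h7 (Pf L) (fun om => (∀ d < Pf L - 1, ¬ (0 < d ∧ pmd om d (Pf L) = 1)) ∧
      pmd om (Pf L - 1) (Pf L) = 1 % Pf L)).2.2.1 (by
      obtain ⟨om, hom, ho1, ho2⟩ := (h6 (Pf L)).1
      refine ⟨om, hom, ?_, ?_⟩
      · rintro d hd ⟨hd1, hd2⟩
        simp only [pmd, hpos, if_false] at hd2
        exact ho1 d hd hd1 hd2
      · simp only [pmd, hpos, if_false]
        exact ho2)
    exact ⟨this.1, this.2.1⟩
  refine ⟨hpr, hP.2.1, by omega, hO.1, ?_, ?_⟩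
  · intro d hd hd0 h
    apply hO.2.1 d hd
    refine ⟨hd0, ?_⟩
    simp only [pmd, hpos, if_false]
    exact h
  · have := hO.2.2
    simp only [pmd, hpos, if_false] at this
    exact this

end Pool.Agent.Helper83.DC
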